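import Mathlib
import Pool.Agent.H704.Splitting

/-!
# MP_fb232a_lc: the strong polarized relation at a real-valued measurable cardinal

Let `κ` be a real-valued measurable cardinal.  If `κ = 2^ℵ₀` then `(κ, ω) → (κ, ω)^{1,1}_2` fails.
More generally, for `κ ≤ 2^ℵ₀` and every family `F` of at most `κ` infinite subsets of `ω` one colouring
`c : κ × ω → 2` has, for all `B ∈ F`, fewer than `κ` rows that are constant on `B`.
-/

set_option autoImplicit false

namespace Pool.Agent.Results.MP_fb232a_lc.ContinuumCase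

open Cardinal MeasureTheory Set
open scoped ENNReal

/-- `κ` is real-valued measurable: it is uncountable and some set `X` of cardinality `κ` carries a
probability measure `m`, defined on all subsets of `X`, which vanishes on singletons and is
`κ`-additive: `m (⋃ i, s i) = ∑ i, m (s i)` for every pairwise disjoint family of fewer than `κ`
sets. -/
def RealValuedMeasurable (κ : Cardinal.{0}) : Prop :=
  ℵ₀ < κ ∧ ∃ (X : Type) (m : Set X → ℝ≥0∞), #X = κ ∧ m univ = 1 ∧ (∀ x, m {x} = 0) ∧
    ∀ (ι : Type) (s : ι → Set X), #ι < κ → (∀ i j, i ≠ j → Disjoint (s i) (s j)) →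
      m (⋃ i, s i) = ∑' i, m (s i)

/-- The strong polarized relation `(l, k) → (l, k)^{1,1}_2`: every colouring of `l × k` with two colours
is constant on `A × B` for some `A ⊆ l` of cardinality `l` and some `B ⊆ k` of cardinality `k`. -/
def StrongPolarized (l k : Cardinal.{0}) : Prop :=
  ∀ c : l.out × k.out → Bool, ∃ (A : Set l.out) (B : Set k.out), #A = l ∧ #B = k ∧
    ∃ i, ∀ a ∈ A, ∀ b ∈ B, c (a, b) = i

/-- the data of a real-valued measurable cardinal `κ ≤ 2^ℵ₀`, in the form used below -/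
lemma exists_random {κ : Cardinal.{0}} (h : RealValuedMeasurable κ) (hκ : κ ≤ 2 ^ ℵ₀) :
    ∃ (X : Type) (m : Set X → ℝ≥0∞) (f : X → ℕ → Bool), #X = κ ∧ m univ = 1 ∧
      (∀ (ι : Type) (s : ι → Set X), #ι < κ → (∀ i, m (s i) = 0) → m (⋃ i, s i) = 0) ∧
      ∀ B : Set ℕ, B.Infinite → ∀ i, m {x | ∀ b ∈ B, f x b = i} = 0 := by
  obtain ⟨hω, X, m, hX, h1, hpt, hadd⟩ := h
  let _ : MeasurableSpace X := ⊤
  have hms : ∀ s : Set X, MeasurableSet s := fun s => trivial
  have hempty : m ∅ = 0 := by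
    have h0 : #Empty < κ := by
      rw [mk_empty]
      exact lt_of_le_of_lt bot_le hω
    have := hadd Empty (fun _ => ∅) h0 (fun i => i.elim)
    simpa using this
  have hnat : ∀ s : ℕ → Set X, Pairwise (Function.onFun Disjoint s) →
      m (⋃ i, s i) = ∑' i, m (s i) := fun s hs =>
    hadd ℕ s (by rw [mk_nat]; exact hω) (fun i j hij => hs hij)
  let μ : Measure X := Measure.ofMeasurable (fun s _ => m s) hempty (fun s _ hs => hnat s hs)
  have hμ : ∀ s, μ s = m s := fun s => Measure.ofMeasurable_apply s (hms s)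
  have hprob : IsProbabilityMeasure μ := ⟨by rw [hμ, h1]⟩
  -- an injection into the unit interval
  have hcard : #X ≤ #(Icc (0 : ℝ) 1) := by
    rw [hX, mk_Icc_real one_pos, ← two_power_aleph0]
    exact hκ
  obtain ⟨g⟩ := Cardinal.le_def _ _ |>.1 hcard
  obtain ⟨f, hf⟩ := Pool.Agent.H704.Splitting.exists_random hms μ (fun x => ((g x : Icc (0:ℝ) 1) : ℝ))
    (fun x y hxy => g.injective (Subtype.ext hxy)) (fun x => (g x).2.1) (fun x => (g x).2.2)
    (fun x => by rw [hμ, hpt])
  refine ⟨X, m, f, hX, h1, ?_, fun B hB i => by rw [← hμ]; exact hf B hB i⟩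
  intro ι s hι hs
  classical
  -- disjointify along a well-order
  obtain ⟨r, hr⟩ : ∃ r : ι → ι → Prop, IsWellOrder ι r := ⟨WellOrderingRel, inferInstance⟩
  set t : ι → Set X := fun i => s i \ ⋃ j, ⋃ (_ : r j i), s j with ht
  have htU : ⋃ i, t i = ⋃ i, s i := by
    apply Subset.antisymm
    · exact iUnion_mono fun i => fun x hx => hx.1
    · intro x hx
      obtain ⟨i, hi⟩ := mem_iUnion.1 hx
      have hne : {i | x ∈ s i}.Nonempty := ⟨i, hi⟩
      have hwf : WellFounded r := hr.wf
      refine mem_iUnion.2 ⟨hwf.min _ hne, hwf.min_mem _ hne, ?_⟩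
      intro hx'
      simp only [mem_iUnion, exists_prop] at hx'
      obtain ⟨j, hj, hxj⟩ := hx'
      exact hwf.not_lt_min {i | x ∈ s i} hxj hj
  have htd : ∀ i j, i ≠ j → Disjoint (t i) (t j) := by
    intro i j hij
    refine Set.disjoint_left.2 fun x hxi hxj => ?_
    rcases hr.toTrichotomous.rel_or_eq_or_rel_swap (a := i) (b := j) with h | h | h
    · exact hxj.2 (mem_iUnion.2 ⟨i, mem_iUnion.2 ⟨h, hxi.1⟩⟩)
    · exact hij h
    · exact hxi.2 (mem_iUnion.2 ⟨j, mem_iUnion.2 ⟨h, hxj.1⟩⟩)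
  have ht0 : ∀ i, m (t i) = 0 := by
    intro i
    have : μ (t i) ≤ μ (s i) := measure_mono fun x hx => hx.1
    rw [hμ, hμ, hs i] at this
    exact le_antisymm this bot_le
  rw [← htU, hadd ι t hι htd]
  simp [ht0]

/-- **Main theorem.** Let `κ` be a real-valued measurable cardinal.

(1) If `κ = 2^ℵ₀`, the strong polarized relation `(κ, ω) → (κ, ω)^{1,1}_2` fails.

(2) If `κ ≤ 2^ℵ₀` and `F` is a family of at most `κ` infinite subsets of `ω`, there is a colouring
`c : κ × ω → 2` such that for all `B ∈ F` and both colours `i` fewer than `κ` rows of `c` are constantly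
`i` on `B`. -/
theorem result (κ : Cardinal.{0}) (h : RealValuedMeasurable κ) :
    (κ = 2 ^ ℵ₀ → ¬ StrongPolarized κ ℵ₀) ∧
    (κ ≤ 2 ^ ℵ₀ → ∀ F : Set (Set ℕ), #F ≤ κ → (∀ B ∈ F, B.Infinite) →
      ∃ c : κ.out × ℕ → Bool, ∀ B ∈ F, ∀ i : Bool,
        #{a : κ.out | ∀ b ∈ B, c (a, b) = i} < κ) := by
  have hω : ℵ₀ < κ := h.1
  have part2 : κ ≤ 2 ^ ℵ₀ → ∀ F : Set (Set ℕ), #F ≤ κ → (∀ B ∈ F, B.Infinite) →
      ∃ c : κ.out × ℕ → Bool, ∀ B ∈ F, ∀ i : Bool,
        #{a : κ.out | ∀ b ∈ B, c (a, b) = i} < κ := by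
    intro hκ F hF hinf
    obtain ⟨X, m, f, hX, h1, hnull, hf⟩ := exists_random h hκ
    have hord : #κ.ord.ToType = κ := by rw [mk_toType, card_ord]
    have hIio : ∀ i : κ.ord.ToType, #{j : κ.ord.ToType // j < i} < κ := by
      intro i
      have := Ordinal.typein_lt_self i
      rw [lt_ord] at this
      rwa [Ordinal.card_typein] at this
    have hIic : ∀ i : κ.ord.ToType, #{j : κ.ord.ToType // j ≤ i} < κ := by
      intro i
      have hle : #{j : κ.ord.ToType // j ≤ i} ≤ #{j : κ.ord.ToType // j < i} + 1 := by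
        classical
        have : #(Option {j : κ.ord.ToType // j < i}) = #{j : κ.ord.ToType // j < i} + 1 :=
          mk_option
        rw [← this]
        refine mk_le_of_injective (f := fun j : {j : κ.ord.ToType // j ≤ i} =>
          if hj : j.1 < i then some ⟨j.1, hj⟩ else none) ?_
        intro a b hab
        by_cases ha : a.1 < i
        · by_cases hb : b.1 < i
          · simp only [ha, hb, dif_pos, Option.some.injEq, Subtype.mk.injEq] at hab
            exact Subtype.ext hab
          · simp [ha, hb] at hab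
        · by_cases hb : b.1 < i
          · simp [ha, hb] at hab
          · have e1 : a.1 = i := le_antisymm a.2 (not_lt.1 ha)
            have e2 : b.1 = i := le_antisymm b.2 (not_lt.1 hb)
            exact Subtype.ext (e1.trans e2.symm)
      refine lt_of_le_of_lt hle (add_lt_of_lt hω.le (hIio i) (one_lt_aleph0.trans hω))
    obtain ⟨e⟩ : Nonempty (κ.out ≃ κ.ord.ToType) := Cardinal.eq.1 (by rw [mk_out, hord])
    obtain ⟨j⟩ : Nonempty (F ↪ κ.ord.ToType) := by
      rw [← Cardinal.le_def, hord]; exact hF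
    -- pick the rows
    have hx : ∀ a : κ.ord.ToType, ∃ x : X, ∀ B : F, j B ≤ a → ∀ i, ¬ ∀ b ∈ (B : Set ℕ), f x b = i := by
      intro a
      by_contra hcon
      push Not at hcon
      let ι : Type := {B : F // j B ≤ a} × Bool
      have hι : #ι < κ := by
        have h2 : #{B : F // j B ≤ a} ≤ #{k : κ.ord.ToType // k ≤ a} :=
          mk_le_of_injective (f := fun B : {B : F // j B ≤ a} =>
            (⟨j B.1, B.2⟩ : {k : κ.ord.ToType // k ≤ a})) (by
              intro B C hBC
              have := congrArg Subtype.val hBC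
              exact Subtype.ext (j.injective this))
        have : #ι = #{B : F // j B ≤ a} * #Bool := by
          rw [Cardinal.mul_def]
        rw [this]
        refine mul_lt_of_lt hω.le (lt_of_le_of_lt h2 (hIic a)) ?_
        exact (lt_aleph0_of_finite Bool).trans hω
      have hU := hnull ι (fun p => {x | ∀ b ∈ (p.1.1 : Set ℕ), f x b = p.2}) hι
        (fun p => hf _ (hinf _ p.1.1.2) p.2)
      have huniv : (⋃ p : ι, {x | ∀ b ∈ (p.1.1 : Set ℕ), f x b = p.2}) = Set.univ := by
        refine eq_univ_of_forall fun x => ?_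
        obtain ⟨B, hB, i, hi⟩ := hcon x
        exact mem_iUnion.2 ⟨(⟨B, hB⟩, i), hi⟩
      rw [huniv, h1] at hU
      exact one_ne_zero hU
    choose x hx using hx
    refine ⟨fun p => f (x (e p.1)) p.2, ?_⟩
    intro B hB i
    refine lt_of_le_of_lt ?_ (hIio (j ⟨B, hB⟩))
    refine mk_le_of_injective (f := fun a : {a : κ.out | ∀ b ∈ B, f (x (e a)) b = i} =>
      (⟨e a.1, ?_⟩ : {k : κ.ord.ToType // k < j ⟨B, hB⟩})) ?_
    · by_contra hcon
      exact hx (e a.1) ⟨B, hB⟩ (not_lt.1 hcon) i a.2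
    · intro a b hab
      have := congrArg Subtype.val hab
      exact Subtype.ext (e.injective this)
  refine ⟨?_, part2⟩
  intro hκ hpol
  have hF : #{B : Set ℕ | B.Infinite} ≤ κ := by
    refine (mk_set_le _).trans ?_
    rw [mk_set, mk_nat, hκ]
  obtain ⟨c, hc⟩ := part2 hκ.le {B : Set ℕ | B.Infinite} hF (fun B hB => hB)
  obtain ⟨e⟩ : Nonempty ((ℵ₀ : Cardinal.{0}).out ≃ ℕ) := Cardinal.eq.1 (by rw [mk_out, mk_nat])
  obtain ⟨A, B, hA, hB, i, hi⟩ := hpol (fun p => c (p.1, e p.2))
  have hBinf : (e '' B).Infinite := by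
    rw [← Set.infinite_coe_iff, Cardinal.infinite_iff, mk_image_eq e.injective, hB]
  have hlt := hc (e '' B) hBinf i
  have hle : #A ≤ #{a : κ.out | ∀ b ∈ e '' B, c (a, b) = i} := by
    refine mk_le_mk_of_subset fun a ha => ?_
    rintro _ ⟨b, hb, rfl⟩
    exact hi a ha b hb
  rw [hA] at hle
  exact absurd (lt_of_le_of_lt hle hlt) (lt_irrefl _)

end Pool.Agent.Results.MP_fb232a_lc.ContinuumCase
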